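import Pool.Agent.Q72.EG.Stm2

/-!
# Project EG: job CONE
-/

set_option autoImplicit false

namespace Pool.Agent.Q210.EG

open MvPolynomial Filter Topology Metric Pool.Agent.W996.EC Pool.Agent.Q72.EG

/-- a common denominator -/
theorem common_den {n : ℕ} (M : Fin n → ℚ) :
    ∃ D : ℕ, 0 < D ∧ ∀ i, ∃ z : ℤ, (D : ℚ) * M i = z := by
  refine ⟨∏ j, (M j).den, Finset.prod_pos fun j _ => (M j).den_pos, fun i => ?_⟩
  obtain ⟨e, he⟩ := Finset.dvd_prod_of_mem (fun j => (M j).den) (Finset.mem_univ i)
  refine ⟨e * (M i).num, ?_⟩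
  rw [he]
  push_cast
  have := Rat.mul_den_eq_num (M i)
  linear_combination (e : ℚ) * this

theorem cone : S_cone := by
  intro n A hfin hrat hpos l hl
  by_contra hcon
  have hge : ∀ a ∈ A, 0 ≤ dot l a := fun a ha => by
    by_contra h
    exact hcon ⟨a, ha, lt_of_not_ge h⟩
  -- the rational span of the entries of `l`
  set W : Submodule ℚ ℝ := Submodule.span ℚ (Set.range l) with hW
  have : FiniteDimensional ℚ W := FiniteDimensional.span_of_finite ℚ (Set.finite_range l)
  set b := Module.finBasis ℚ W with hb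
  set r := Module.finrank ℚ W with hr
  let w : Fin n → W := fun i => ⟨l i, Submodule.subset_span ⟨i, rfl⟩⟩
  have hw : ∀ i, ∑ j, b.repr (w i) j • b j = w i := fun i => b.sum_repr (w i)
  have hl' : ∀ i, l i = ∑ j, (b.repr (w i) j : ℝ) * (b j : ℝ) := by
    intro i
    have h1 := congrArg (fun v : W => (v : ℝ)) (hw i)
    simp only [Submodule.coe_sum, Submodule.coe_smul] at h1
    rw [show l i = ((w i : W) : ℝ) from rfl, ← h1]
    refine Finset.sum_congr rfl fun j _ => ?_
    rw [Rat.smul_def]
  -- the family of vectors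
  let M : (Fin r → ℝ) → Fin n → ℝ := fun β i => ∑ j, (b.repr (w i) j : ℝ) * β j
  have hMc : ∀ i, Continuous fun β => M β i := by
    intro i
    exact continuous_finsetSum _ fun j _ => continuous_const.mul (continuous_apply j)
  have hMl : M (fun j => (b j : ℝ)) = l := by
    funext i
    exact (hl' i).symm
  have horth : ∀ a ∈ A, dot l a = 0 → ∀ β, dot (M β) a = 0 := by
    intro a ha h0 β
    choose q hq using hrat a ha
    have h1 : ∑ i, q i • w i = 0 := by
      apply Subtype.ext
      simp only [Submodule.coe_sum, Submodule.coe_smul, Submodule.coe_zero]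
      rw [← h0, dot]
      refine Finset.sum_congr rfl fun i _ => ?_
      rw [Rat.smul_def, hq i, mul_comm]
    have h2 : ∀ j, ∑ i, q i * b.repr (w i) j = 0 := by
      intro j
      have h3 := congrArg (fun v => b.repr v j) h1
      simpa [map_sum, Finsupp.coe_finsetSum] using h3
    have h4 : dot (M β) a = ∑ j, β j * ((∑ i, q i * b.repr (w i) j : ℚ) : ℝ) := by
      simp only [dot, M]
      simp_rw [Finset.sum_mul]
      rw [Finset.sum_comm]
      refine Finset.sum_congr rfl fun j _ => ?_
      push_cast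
      rw [Finset.mul_sum]
      refine Finset.sum_congr rfl fun i _ => ?_
      rw [hq i]
      ring
    rw [h4]
    simp [h2]
  obtain ⟨i0, hi0⟩ : ∃ i, l i ≠ 0 := by
    by_contra h
    apply hl
    funext i
    by_contra h2
    exact h ⟨i, h2⟩
  -- an open set of good parameters
  have hopen : IsOpen {β : Fin r → ℝ | (∀ a ∈ A, 0 < dot l a → 0 < dot (M β) a) ∧ M β i0 ≠ 0} := by
    apply IsOpen.inter
    · have : {β : Fin r → ℝ | ∀ a ∈ A, 0 < dot l a → 0 < dot (M β) a} =
          ⋂ a ∈ {a ∈ A | 0 < dot l a}, {β | 0 < dot (M β) a} := by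
        ext β
        simp
      change IsOpen {β : Fin r → ℝ | ∀ a ∈ A, 0 < dot l a → 0 < dot (M β) a}
      rw [this]
      refine Set.Finite.isOpen_biInter (hfin.subset (Set.sep_subset _ _)) fun a _ => ?_
      refine isOpen_lt continuous_const ?_
      exact continuous_finsetSum _ fun i _ => (hMc i).mul continuous_const
    · exact isOpen_ne_fun (hMc i0) continuous_const
  have hne : {β : Fin r → ℝ | (∀ a ∈ A, 0 < dot l a → 0 < dot (M β) a) ∧ M β i0 ≠ 0}.Nonempty := by
    refine ⟨fun j => (b j : ℝ), ?_, ?_⟩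
    · intro a _ h
      rw [hMl]; exact h
    · rw [hMl]; exact hi0
  have hdense : DenseRange (fun β : Fin r → ℚ => fun j => ((β j : ℚ) : ℝ)) :=
    DenseRange.piMap fun _ => Rat.denseRange_cast
  obtain ⟨β, hβ1, hβ2⟩ := hdense.exists_mem_open hopen hne
  -- clear denominators
  let Q : Fin n → ℚ := fun i => ∑ j, b.repr (w i) j * β j
  have hQ : ∀ i, M (fun j => ((β j : ℚ) : ℝ)) i = (Q i : ℝ) := by
    intro i
    simp only [M, Q]
    push_cast
    rfl
  obtain ⟨D, hD, hz⟩ := common_den Q
  choose z hz using hz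
  have hD' : (0 : ℝ) < D := by exact_mod_cast hD
  have hzR : ∀ i, (z i : ℝ) = D * M (fun j => ((β j : ℚ) : ℝ)) i := by
    intro i
    rw [hQ i]
    have := hz i
    exact_mod_cast this.symm
  have hz0 : z ≠ 0 := by
    intro h
    have h1 := hzR i0
    rw [h] at h1
    simp only [Pi.zero_apply, Int.cast_zero] at h1
    rcases mul_eq_zero.1 h1.symm with h2 | h2
    · exact hD'.ne' h2
    · exact hβ2 h2
  obtain ⟨a, ha, hneg⟩ := hpos z hz0
  have h1 : ∑ i, (z i : ℝ) * a i = D * dot (M fun j => ((β j : ℚ) : ℝ)) a := by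
    rw [dot, Finset.mul_sum]
    refine Finset.sum_congr rfl fun i _ => ?_
    rw [hzR i]
    ring
  rw [h1] at hneg
  rcases (hge a ha).lt_or_eq with h2 | h2
  · have := hβ1 a ha h2
    nlinarith
  · rw [horth a ha h2.symm] at hneg
    simp at hneg

end Pool.Agent.Q210.EG
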