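import Pool.Agent.Q72.EG.Stm2
import Pool.Agent.W565.EC.Clos

/-!
# Project EG: job ELL
-/

set_option autoImplicit false

namespace Pool.Agent.Q210.EG

open MvPolynomial Filter Topology Metric Pool.Agent.W996.EC Pool.Agent.Q72.EG

theorem hom_eval {n d : ℕ} {F : MvPolynomial (Fin n) ℂ} (hF : F.IsHomogeneous d) (c : ℂ)
    (x : Fin n → ℂ) : eval (fun i => c * x i) F = c ^ d * eval x F := by
  rw [eval_eq', eval_eq', Finset.mul_sum]
  refine Finset.sum_congr rfl fun m hm => ?_
  have h1 : ∏ i, (c * x i) ^ m i = c ^ d * ∏ i, x i ^ m i := by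
    simp_rw [mul_pow]
    rw [Finset.prod_mul_distrib, Finset.prod_pow_eq_pow_sum]
    congr 2
    have h2 := hF (mem_support_iff.1 hm)
    rw [← h2, Finsupp.weight_apply, Finsupp.sum_fintype _ _ (fun _ => by simp)]
    simp
  rw [h1]
  ring

theorem exists_not_parallel {n : ℕ} (hn : 2 ≤ n) (a : Fin n → ℝ) (ha : a ≠ 0) :
    ∃ κ : Fin n → ℝ, ∀ σ : ℝ, (fun i => σ * a i + κ i) ≠ 0 := by
  obtain ⟨i, hi⟩ : ∃ i, a i ≠ 0 := by
    by_contra h
    apply ha
    funext i
    by_contra h2
    exact h ⟨i, h2⟩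
  obtain ⟨j, hj⟩ : ∃ j : Fin n, j ≠ i := by
    have : Nontrivial (Fin n) := Fin.nontrivial_iff_two_le.2 hn
    exact exists_ne i
  refine ⟨fun l => if l = j then 1 else 0, fun σ h => ?_⟩
  have h1 := congrFun h i
  have h2 := congrFun h j
  simp only [Pi.zero_apply, hj.symm, if_false, add_zero, if_true] at h1 h2
  rcases mul_eq_zero.1 h1 with h3 | h3
  · rw [h3] at h2
    simp at h2
  · exact hi h3

theorem ell : S_ell := by
  intro n P a hn hd ha hF
  have hP : P ≠ 0 := by
    rintro rfl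
    simp at hd
  set F := homogeneousComponent P.totalDegree P with hFdef
  set d := P.totalDegree with hddef
  have hhom : F.IsHomogeneous d := homogeneousComponent_isHomogeneous _ _
  refine ⟨F, (Pool.Agent.W565.EC.t_top n P hP).1, fun hstar => ?_⟩
  obtain ⟨κ, hκ⟩ := exists_not_parallel hn a ha
  -- values on the imaginary axis
  have himag : ∀ σ : ℝ, eval (fun i => (a i : ℂ) * (Complex.I * σ) + Complex.I * (κ i : ℂ)) F ≠ 0 := by
    intro σ
    have h1 : (fun i => (a i : ℂ) * (Complex.I * σ) + Complex.I * (κ i : ℂ)) =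
        fun i => Complex.I * cx (fun i => σ * a i + κ i) i := by
      funext i
      simp only [cx]
      push_cast
      ring
    rw [h1, hom_eval hhom]
    exact mul_ne_zero (pow_ne_zero _ Complex.I_ne_zero) (hF _ (hκ σ))
  have hκ0 : κ ≠ 0 := by
    intro h
    apply hκ 0
    rw [h]
    funext i
    simp
  have hnegκ : ∀ ω : ℂ, eval (fun i => (a i : ℂ) * ω + Complex.I * ((-κ) i : ℝ)) F =
      (-1) ^ d * eval (fun i => (a i : ℂ) * (-ω) + Complex.I * (κ i : ℂ)) F := by
    intro ω
    rw [← hom_eval hhom]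
    congr 1
    apply congrArg
    funext i
    simp only [Pi.neg_apply]
    push_cast
    ring
  -- no zeros at all
  have hleft : ∀ ω : ℂ, ω.re < 0 → eval (fun i => (a i : ℂ) * ω + Complex.I * (κ i : ℂ)) F ≠ 0 := by
    rcases hstar a rfl κ with h | h
    · exact h
    · exact absurd (h (Complex.I * (0 : ℝ))) (himag 0)
  have hright : ∀ ω : ℂ, 0 < ω.re → eval (fun i => (a i : ℂ) * ω + Complex.I * (κ i : ℂ)) F ≠ 0 := by
    intro ω hω h0
    have h1 : eval (fun i => (a i : ℂ) * (-ω) + Complex.I * ((-κ) i : ℝ)) F = 0 := by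
      rw [hnegκ, neg_neg, h0, mul_zero]
    rcases hstar a rfl (-κ) with h | h
    · exact h (-ω) (by simpa using hω) h1
    · have h2 := h (-(Complex.I * (0 : ℝ)))
      rw [hnegκ, neg_neg] at h2
      rcases mul_eq_zero.1 h2 with h3 | h3
      · exact absurd h3 (pow_ne_zero _ (by norm_num))
      · exact himag 0 h3
  have hall : ∀ ω : ℂ, eval (fun i => (a i : ℂ) * ω + Complex.I * (κ i : ℂ)) F ≠ 0 := by
    intro ω
    rcases lt_trichotomy ω.re 0 with h | h | h
    · exact hleft ω h
    · have h1 : ω = Complex.I * (ω.im : ℝ) := by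
        apply Complex.ext
        · simp [h]
        · simp
      rw [h1]
      exact himag _
    · exact hright ω h
  -- the polynomial in one variable
  set p : Polynomial ℂ := aeval (fun i => Polynomial.C (a i : ℂ) * Polynomial.X +
    Polynomial.C (Complex.I * (κ i : ℂ))) F with hp
  have hpe : ∀ ω : ℂ, p.eval ω = eval (fun i => (a i : ℂ) * ω + Complex.I * (κ i : ℂ)) F := by
    intro ω
    have h : ((Polynomial.evalRingHom ω).comp (aeval (fun i => Polynomial.C (a i : ℂ) * Polynomial.X +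
        Polynomial.C (Complex.I * (κ i : ℂ))) : MvPolynomial (Fin n) ℂ →ₐ[ℂ] Polynomial ℂ).toRingHom) =
        eval (fun i => (a i : ℂ) * ω + Complex.I * (κ i : ℂ)) := by
      apply MvPolynomial.ringHom_ext
      · intro c
        simp
      · intro i
        simp
    exact DFunLike.congr_fun h F
  have hdeg : p.degree = 0 := by
    by_contra h
    obtain ⟨ω, hω⟩ := IsAlgClosed.exists_root p h
    exact hall ω ((hpe ω).symm.trans hω)
  obtain ⟨c, hc⟩ : ∃ c : ℂ, p = Polynomial.C c := ⟨_, Polynomial.eq_C_of_degree_eq_zero hdeg⟩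
  have hconst : ∀ ω : ℂ, eval (fun i => (a i : ℂ) * ω + Complex.I * (κ i : ℂ)) F = c := by
    intro ω
    rw [← hpe, hc, Polynomial.eval_C]
  -- leading behaviour
  have hlead : ∀ s : ℂ, s ≠ 0 → eval (fun i => (a i : ℂ) + Complex.I * (κ i : ℂ) * s) F = s ^ d * c := by
    intro s hs
    rw [← hconst s⁻¹, ← hom_eval hhom]
    congr 1
    apply congrArg
    funext i
    field_simp
  have hcont : Continuous fun s : ℂ => eval (fun i => (a i : ℂ) + Complex.I * (κ i : ℂ) * s) F := by
    refine (MvPolynomial.continuous_eval F).comp ?_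
    fun_prop
  have h1 : Tendsto (fun s : ℂ => eval (fun i => (a i : ℂ) + Complex.I * (κ i : ℂ) * s) F)
      (𝓝[≠] 0) (𝓝 (eval (fun i => (a i : ℂ) + Complex.I * (κ i : ℂ) * 0) F)) :=
    (hcont.tendsto 0).mono_left nhdsWithin_le_nhds
  have h2 : Tendsto (fun s : ℂ => s ^ d * c) (𝓝[≠] 0) (𝓝 (0 ^ d * c)) := by
    have : Continuous fun s : ℂ => s ^ d * c := by fun_prop
    exact (this.tendsto 0).mono_left nhdsWithin_le_nhds
  have h3 : eval (fun i => (a i : ℂ) + Complex.I * (κ i : ℂ) * 0) F = 0 ^ d * c := by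
    refine tendsto_nhds_unique h1 (h2.congr' ?_)
    filter_upwards [self_mem_nhdsWithin] with s hs
    exact (hlead s hs).symm
  have h4 : (0 : ℂ) ^ d = 0 := zero_pow (by omega)
  rw [h4, zero_mul] at h3
  apply hF a ha
  convert h3 using 3
  funext i
  simp [cx]

end Pool.Agent.Q210.EG
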