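import Pool.Agent.Q239.EG.Base
import Pool.Agent.Q206.EG.AlgPoly

/-!
# Project EG: job SLC
-/

set_option autoImplicit false

namespace Pool.Agent.Q210.EG

open MvPolynomial Filter Topology Metric Pool.Agent.W996.EC Pool.Agent.Q72.EG

theorem gap (V : Finset ℝ) : ∃ δ : ℝ, 0 < δ ∧ ∀ v ∈ V, v ≠ 0 → δ ≤ |v| := by
  classical
  induction V using Finset.induction_on with
  | empty => exact ⟨1, one_pos, fun v hv => absurd hv (Finset.notMem_empty v)⟩
  | insert a s ha ih =>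
    obtain ⟨δ, h0, h⟩ := ih
    by_cases h1 : a = 0
    · refine ⟨δ, h0, fun v hv hv0 => ?_⟩
      rcases Finset.mem_insert.1 hv with rfl | hv
      · exact absurd h1 hv0
      · exact h v hv hv0
    · refine ⟨min δ |a|, lt_min h0 (abs_pos.2 h1), fun v hv hv0 => ?_⟩
      rcases Finset.mem_insert.1 hv with rfl | hv
      · exact min_le_right _ _
      · exact (min_le_left _ _).trans (h v hv hv0)

/-- the connectedness argument -/
theorem conn {n : ℕ} (c : Fin n → ℂ) (ρ : ℝ) (hρ : 0 < ρ) (F g : (Fin n → ℂ) → ℝ)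
    (hF : ContinuousOn F (ball c ρ)) (hg : ContinuousOn g (ball c ρ)) (L D₁ D₀ K δ a : ℝ)
    (S : Finset ℝ) (hL : 0 < L) (hD1 : 0 ≤ D₁) (hδ : 0 < δ)
    (hgap : ∀ σ ∈ S, σ ≠ a → δ ≤ |σ - a|) (hK : 2 * D₁ + |D₀| < δ * K) (hK0 : 0 < K)
    (hbig : ∀ u ∈ ball c ρ, K * L ≤ |g u|)
    (hS : ∀ u ∈ ball c ρ, ∃ σ ∈ S, |F u - σ * g u| ≤ D₁ * L)
    (hc : |F c - a * g c| ≤ D₀ * L) :
    ∀ u ∈ ball c ρ, |F u - a * g u| ≤ D₁ * L := by
  have hcc : c ∈ ball c ρ := mem_ball_self hρ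
  have hg0 : ∀ u ∈ ball c ρ, 0 < |g u| := fun u hu => (mul_pos hK0 hL).trans_le (hbig u hu)
  -- bound by `|g|`
  have hsmall : ∀ u ∈ ball c ρ, D₁ * L < δ / 2 * |g u| := by
    intro u hu
    have h1 := hbig u hu
    have h2 := abs_nonneg D₀
    have h3 : 2 * D₁ * L < δ * K * L := by
      apply mul_lt_mul_of_pos_right _ hL
      linarith
    nlinarith
  -- the exponent at the centre
  have hcen : |F c - a * g c| ≤ D₁ * L := by
    obtain ⟨σ, hσ, h1⟩ := hS c hcc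
    by_cases hσa : σ = a
    · rw [← hσa]
      exact h1
    · exfalso
      have h2 := hgap σ hσ hσa
      have h3 : |σ - a| * |g c| ≤ (D₁ + D₀) * L := by
        rw [← abs_mul]
        calc |(σ - a) * g c| = |(F c - a * g c) - (F c - σ * g c)| := by congr 1; ring
          _ ≤ |F c - a * g c| + |F c - σ * g c| := abs_sub _ _
          _ ≤ D₀ * L + D₁ * L := add_le_add hc h1
          _ = (D₁ + D₀) * L := by ring
      have h4 : δ * (K * L) ≤ |σ - a| * |g c| :=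
        mul_le_mul h2 (hbig c hcc) (mul_pos hK0 hL).le (abs_nonneg _)
      have h5 := le_abs_self D₀
      have h6 : (2 * D₁ + |D₀|) * L < δ * K * L := mul_lt_mul_of_pos_right hK hL
      nlinarith
  intro u hu
  by_contra hcon
  have hcon' : D₁ * L < |F u - a * g u| := lt_of_not_ge hcon
  -- the ratio
  set φ : (Fin n → ℂ) → ℝ := fun u => |F u / g u - a| with hφ
  have hφc : ContinuousOn φ (ball c ρ) := by
    refine ContinuousOn.abs ?_
    refine (hF.div hg fun u hu => ?_).sub continuousOn_const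
    exact abs_pos.1 (hg0 u hu)
  have hφe : ∀ u ∈ ball c ρ, φ u * |g u| = |F u - a * g u| := by
    intro u hu
    have h1 : g u ≠ 0 := abs_pos.1 (hg0 u hu)
    rw [hφ]
    simp only
    rw [← abs_mul, sub_mul, div_mul_cancel₀ _ h1]
  have h1 : φ c ≤ δ / 2 := by
    have h2 := hφe c hcc
    have h3 := hsmall c hcc
    have h4 := hg0 c hcc
    by_contra h5
    have h6 : δ / 2 < φ c := lt_of_not_ge h5
    have : δ / 2 * |g c| < φ c * |g c| := mul_lt_mul_of_pos_right h6 h4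
    linarith
  have h2 : δ / 2 ≤ φ u := by
    obtain ⟨σ, hσ, h3⟩ := hS u hu
    have hσa : σ ≠ a := by
      rintro rfl
      linarith
    have h4 := hgap σ hσ hσa
    have h5 : |σ - a| * |g u| ≤ |F u - a * g u| + D₁ * L := by
      rw [← abs_mul]
      calc |(σ - a) * g u| = |(F u - a * g u) - (F u - σ * g u)| := by congr 1; ring
        _ ≤ |F u - a * g u| + |F u - σ * g u| := abs_sub _ _
        _ ≤ |F u - a * g u| + D₁ * L := by linarith
    have h6 := hg0 u hu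
    have h7 := hsmall u hu
    have h8 : δ * |g u| ≤ |σ - a| * |g u| := mul_le_mul_of_nonneg_right h4 h6.le
    have h9 := hφe u hu
    by_contra h10
    have h11 : φ u < δ / 2 := lt_of_not_ge h10
    have h12 : φ u * |g u| < δ / 2 * |g u| := mul_lt_mul_of_pos_right h11 h6
    linarith
  obtain ⟨w, hw, h3⟩ := (convex_ball c ρ).isPreconnected.intermediate_value hcc hu hφc
    ⟨h1, h2⟩
  have h4 := hφe w hw
  rw [h3] at h4
  have h5 := hsmall w hw
  obtain ⟨σ, hσ, h6⟩ := hS w hw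
  by_cases hσa : σ = a
  · rw [hσa] at h6
    linarith
  · have h7 := hgap σ hσ hσa
    have h8 : |σ - a| * |g w| ≤ |F w - a * g w| + D₁ * L := by
      rw [← abs_mul]
      calc |(σ - a) * g w| = |(F w - a * g w) - (F w - σ * g w)| := by congr 1; ring
        _ ≤ |F w - a * g w| + |F w - σ * g w| := abs_sub _ _
        _ ≤ |F w - a * g w| + D₁ * L := by linarith
    have h9 := hg0 w hw
    have h10 : δ * |g w| ≤ |σ - a| * |g w| := mul_le_mul_of_nonneg_right h7 h9.le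
    linarith

/-- the relation of `y_l` holds at the points of the variety -/
theorem root_at {n : ℕ} {E : Type} [Field E] [Algebra ℂ E] (G : Gen n E) (l : Fin n)
    (A : Polynomial (MvPolynomial (Option (Fin n)) ℂ))
    (hA : (A.map (aeval (oe (G.y G.i0 ^ G.ε) G.x) :
      MvPolynomial (Option (Fin n)) ℂ →ₐ[ℂ] E).toRingHom).eval (G.y l) = 0)
    (x y : Fin n → ℂ) (Y : ℂ) (hp : Sum.elim x y ∈ Pt (Sum.elim G.x G.y)) (hy : ∀ l, y l ≠ 0)
    (hY : y G.i0 ^ G.ε = Y) : (A.map (eval (oe Y x))).eval (y l) = 0 := by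
  set θ : Option (Fin n) ⊕ Fin n → E := Sum.elim (oe (G.y G.i0 ^ G.ε) G.x) G.y with hθ
  set q : Option (Fin n) ⊕ Fin n → ℂ := Sum.elim (oe Y x) y with hq
  have hq1 : q ∈ Pt θ := by
    refine Pool.Agent.Q239.EG.pt_of_frac hp (s := X (Sum.inr G.i0)) ?_ ?_
    · rw [eval_X, Sum.elim_inr]
      exact hy _
    · rintro ((_ | l) | l)
      · rcases G.hε with h | h
        · refine ⟨X (Sum.inr G.i0), 0, ?_, ?_⟩
          · simp [hθ, h]
          · simp [hq, ← hY, h]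
        · refine ⟨1, 1, ?_, ?_⟩
          · simp [hθ, h, G.hy]
          · simp [hq, ← hY, h, hy]
      · exact ⟨X (Sum.inl l), 0, by simp [hθ], by simp [hq]⟩
      · exact ⟨X (Sum.inr l), 0, by simp [hθ], by simp [hq]⟩
  set H : MvPolynomial (Option (Fin n) ⊕ Fin n) ℂ :=
    A.eval₂ (rename Sum.inl : MvPolynomial (Option (Fin n)) ℂ →ₐ[ℂ]
      MvPolynomial (Option (Fin n) ⊕ Fin n) ℂ).toRingHom (X (Sum.inr l)) with hH
  have h1 : aeval θ H = 0 := by
    rw [← hA, hH, Polynomial.eval_map]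
    have h2 := Polynomial.hom_eval₂ A (rename Sum.inl : MvPolynomial (Option (Fin n)) ℂ →ₐ[ℂ]
      MvPolynomial (Option (Fin n) ⊕ Fin n) ℂ).toRingHom (aeval θ : MvPolynomial (Option (Fin n) ⊕ Fin n) ℂ →ₐ[ℂ] E).toRingHom (X (Sum.inr l))
    have h3 : (aeval θ : MvPolynomial (Option (Fin n) ⊕ Fin n) ℂ →ₐ[ℂ] E).toRingHom.comp (rename Sum.inl : MvPolynomial (Option (Fin n)) ℂ →ₐ[ℂ]
      MvPolynomial (Option (Fin n) ⊕ Fin n) ℂ).toRingHom =
        (aeval (oe (G.y G.i0 ^ G.ε) G.x) : MvPolynomial (Option (Fin n)) ℂ →ₐ[ℂ] E).toRingHom := by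
      apply MvPolynomial.ringHom_ext
      · intro c
        simp
      · intro i
        simp [hθ]
    rw [h3] at h2
    have h4 : (aeval θ : MvPolynomial (Option (Fin n) ⊕ Fin n) ℂ →ₐ[ℂ] E).toRingHom (X (Sum.inr l)) = G.y l := by simp [hθ]
    rw [h4] at h2
    exact h2
  have h5 := hq1 H h1
  rw [Polynomial.eval_map, ← h5, hH]
  have h2 := Polynomial.hom_eval₂ A (rename Sum.inl : MvPolynomial (Option (Fin n)) ℂ →ₐ[ℂ]
      MvPolynomial (Option (Fin n) ⊕ Fin n) ℂ).toRingHom (eval q) (X (Sum.inr l))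
  have h3 : (eval q).comp (rename Sum.inl : MvPolynomial (Option (Fin n)) ℂ →ₐ[ℂ]
      MvPolynomial (Option (Fin n) ⊕ Fin n) ℂ).toRingHom = eval (oe Y x) := by
    apply MvPolynomial.ringHom_ext
    · intro c
      simp
    · intro i
      simp [hq]
  rw [h3] at h2
  have h4 : (eval q) (X (Sum.inr l)) = y l := by simp [hq]
  rw [h4] at h2
  exact h2.symm

theorem slc (h : S_slope) : S_slc := by
  classical
  intro n E _ _ G
  have h1 := fun l => Pool.Agent.Q206.EG.alg_poly _ _ (G.halg l)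
  choose A hA0 hA using h1
  have h2 : ∀ l, ∃ b j, ¬ G.P ∣ cf ((A l).coeff b) j := by
    intro l
    obtain ⟨b, hb⟩ := hA0 l
    exact ⟨b, Pool.Agent.Q239.EG.exists_not_dvd G hb⟩
  choose R S hR hRS using fun l => h n G.P (A l) G.hP (h2 l)
  have hprime : Prime G.P := UniqueFactorizationMonoid.irreducible_iff_prime.1 G.hP
  refine ⟨∏ l, R l, ?_, ?_⟩
  · intro hd
    obtain ⟨l, -, hl⟩ := (Prime.dvd_finsetProd_iff hprime _).1 hd
    exact hR l hl
  intro R' hR' D D₀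
  have h3 : ∀ l, R l ∣ R' := fun l => (Finset.dvd_prod_of_mem R (Finset.mem_univ l)).trans hR'
  choose D' K hK1 hK using fun l => hRS l R' (h3 l) D
  have h4 : ∀ l, ∃ δ : ℝ, 0 < δ ∧ ∀ σ ∈ S l, σ ≠ G.a l → δ ≤ |σ - G.a l| := by
    intro l
    obtain ⟨δ, h0, h5⟩ := gap ((S l).image fun σ => σ - G.a l)
    refine ⟨δ, h0, fun σ hσ hne => h5 _ (Finset.mem_image_of_mem _ hσ) ?_⟩
    exact sub_ne_zero.2 hne
  choose δ hδ0 hδ using h4
  set D₁ : ℝ := ∑ l, |D' l| with hD1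
  have hD1l : ∀ l, D' l ≤ D₁ := fun l => (le_abs_self _).trans
    (Finset.single_le_sum (f := fun l => |D' l|) (fun i _ => abs_nonneg _) (Finset.mem_univ l))
  have hD10 : 0 ≤ D₁ := Finset.sum_nonneg fun i _ => abs_nonneg _
  set K₀ : ℝ := 3 + ∑ l, |K l| + ∑ l, (2 * D₁ + |D₀| + 1) / δ l with hK0
  have hnn1 : ∀ l, 0 ≤ |K l| := fun l => abs_nonneg _
  have hnn2 : ∀ l, 0 ≤ (2 * D₁ + |D₀| + 1) / δ l := fun l => by
    have := hδ0 l
    have := abs_nonneg D₀
    positivity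
  have hs1 : 0 ≤ ∑ l, |K l| := Finset.sum_nonneg fun l _ => hnn1 l
  have hs2 : 0 ≤ ∑ l, (2 * D₁ + |D₀| + 1) / δ l := Finset.sum_nonneg fun l _ => hnn2 l
  have hKl : ∀ l, K l ≤ K₀ := by
    intro l
    have h5 : |K l| ≤ ∑ l, |K l| :=
      Finset.single_le_sum (f := fun l => |K l|) (fun i _ => hnn1 i) (Finset.mem_univ l)
    have h6 := le_abs_self (K l)
    linarith
  have hKδ : ∀ l, 2 * D₁ + |D₀| < δ l * K₀ := by
    intro l
    have h5 : (2 * D₁ + |D₀| + 1) / δ l ≤ ∑ l, (2 * D₁ + |D₀| + 1) / δ l :=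
      Finset.single_le_sum (f := fun l => (2 * D₁ + |D₀| + 1) / δ l) (fun i _ => hnn2 i)
        (Finset.mem_univ l)
    have h6 : (2 * D₁ + |D₀| + 1) / δ l ≤ K₀ := by linarith
    rw [div_le_iff₀ (hδ0 l)] at h6
    linarith [mul_comm K₀ (δ l)]
  have hK3 : 3 ≤ K₀ := by linarith
  refine ⟨D₁, K₀, by linarith, ?_⟩
  intro T hT c ρ X Y y hρ hYc hyc hadm hpt hcen u hu l
  have hT3 : 3 ≤ T := hK3.trans hT
  have hT0 : 0 < T := by linarith
  have hL : 0 < Real.log T := Real.log_pos (by linarith)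
  refine conn c ρ hρ (fun u => Real.log ‖y u l‖) (fun u => Real.log ‖Y u‖) ?_ ?_ (Real.log T) D₁ D₀
    K₀ (δ l) (G.a l) (S l) hL hD10 (hδ0 l) (hδ l) (hKδ l) (by linarith) ?_ ?_ (hcen l) u hu
  · refine ContinuousOn.log ?_ ?_
    · exact ((continuous_apply l).comp_continuousOn hyc).norm
    · intro w hw
      exact norm_ne_zero_iff.2 ((hpt w hw).2.1 l)
  · refine ContinuousOn.log hYc.norm ?_
    intro w hw
    exact norm_ne_zero_iff.2 (hadm w hw).2.1
  · intro w hw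
    obtain ⟨-, hY0, -, -, hYs⟩ := hadm w hw
    have h5 : Real.log ‖Y w‖ ≤ Real.log (T ^ (-K₀)) :=
      Real.log_le_log (norm_pos_iff.2 hY0) hYs
    rw [Real.log_rpow hT0] at h5
    have h6 := neg_le_abs (Real.log ‖Y w‖)
    linarith
  · intro w hw
    have h5 := (hadm w hw).mono (hKl l) (by linarith)
    obtain ⟨σ, hσ, h6⟩ := hK l T ((hKl l).trans hT) (X w) (Y w) h5 (y w l) ((hpt w hw).2.1 l)
      (root_at G l (A l) (hA l) (X w) (y w) (Y w) (hpt w hw).1 (hpt w hw).2.1 (hpt w hw).2.2)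
    exact ⟨σ, hσ, h6.trans (mul_le_mul_of_nonneg_right (hD1l l) hL.le)⟩

end Pool.Agent.Q210.EG
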